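import Pool.Agent.helper46.CountPart.Ext

set_option autoImplicit false
set_option linter.unusedSectionVars false

open Cardinal Order

namespace Pool.Agent.CountPart

variable {G : Type} [Group G]

/-- the closure operation used for the chain. -/
def C1 (idx : G → Ordinal.{0}) (W : Subgroup G) (𝒩 : Set (Subgroup G)) (C : Finset G → Set G)
    (iw : G → Ordinal.{0}) (s : Finset G) : Set G :=
  C s ∪ (⋃ N ∈ 𝒩, lN N '' (s : Set G)) ∪ {w | w ∈ W ∧ ∃ a ∈ s, iw w = idx a} ∪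
    {a | idx a < Ordinal.omega0}

/-- the generating sets of the chain. -/
def Ach (idx : G → Ordinal.{0}) (W : Subgroup G) (iw : G → Ordinal.{0}) (ζ : Ordinal.{0}) :
    Set G := {w | w ∈ W ∧ (idx w < ζ ∨ iw w < ζ)}

theorem exists_ctx (idx : G → Ordinal.{0}) (hidx : Function.Injective idx)
    (hsurj : ∀ o < (Cardinal.mk G).ord, ∃ a, idx a = o) (wt : Cardinal.{0} → ℕ)
    (W : Subgroup G) (𝒩 : Set (Subgroup G)) (D : Dat G) (b : G → ℕ) (hS : Sys W 𝒩 D)
    (hI : Inc idx W 𝒩) (hCl : Claim idx wt 𝒩 D) :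
    ∃ X : Ctx G, X.OK ∧ X.idx = idx ∧ X.wt = wt ∧ X.W = W ∧ X.𝒩 = 𝒩 ∧ X.D = D ∧ X.b = b := by
  classical
  obtain ⟨iw, hiw, hiwinj⟩ := exists_enum W
  obtain ⟨C, c1, c2, c3⟩ := hS.club
  -- properties of C1
  have hC1c : ∀ s, (C1 idx W 𝒩 C iw s).Countable := by
    intro s
    refine (((c1 s).union ?_).union ?_).union ?_
    · exact hS.fin.countable.biUnion fun N _ => (Finset.countable_toSet s).image _
    · refine Set.MapsTo.countable_of_injOn (f := iw) (t := idx '' (s : Set G)) ?_ ?_ ?_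
      · rintro w ⟨_, a, ha, h⟩
        exact ⟨a, ha, h.symm⟩
      · exact hiwinj.mono fun w hw => hw.1
      · exact (Finset.countable_toSet s).image _
    · refine Set.MapsTo.countable_of_injOn (f := idx) (t := Set.range (fun n : ℕ => (n : Ordinal.{0})))
        ?_ hidx.injOn (Set.countable_range _)
      intro a ha
      obtain ⟨n, hn⟩ := Ordinal.lt_omega0.1 ha
      exact ⟨n, hn.symm⟩
  have hWC : CC (C1 idx W 𝒩 C iw) W := by
    intro s hs u hu
    rcases hu with ((hu | hu) | hu) | hu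
    · exact c2 s hs hu
    · simp only [Set.mem_iUnion] at hu
      obtain ⟨N, hN, w, hw, rfl⟩ := hu
      have h1 := hS.leW N hN (lN_inv_mul N w)
      have h2 := mul_mem (hs hw) (inv_mem h1)
      have h3 : w * ((lN N w)⁻¹ * w)⁻¹ = lN N w := by group
      rw [h3] at h2
      exact h2
    · exact hu.1
    · exact hI.inc3 u hu
  have hCW : Cardinal.mk W ≤ Cardinal.mk G := Cardinal.mk_subtype_le _
  let V : Ordinal.{0} → Subgroup G := fun ζ => cl (C1 idx W 𝒩 C iw) (Ach idx W iw ζ)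
  have hVW : ∀ ζ, V ζ ≤ W := fun ζ => cl_le (fun w hw => hw.1) hWC
  have hVC : ∀ ζ, CC (C1 idx W 𝒩 C iw) (V ζ) := fun ζ => cl_closed
  have hAmono : Monotone (Ach idx W iw) := by
    intro ζ ζ' h w hw
    exact ⟨hw.1, hw.2.imp (fun h' => h'.trans_le h) (fun h' => h'.trans_le h)⟩
  have hcl : ∀ M : Subgroup G, M ≤ W → CC (C1 idx W 𝒩 C iw) M → D.Cl M := fun M hM hMC =>
    c3 M hM fun s hs u hu => hMC s hs (Or.inl (Or.inl (Or.inl hu)))
  have hht : ∀ M : Subgroup G, ∃ t : G → G, D.Cl M → (∀ w ∈ M, t w = w) ∧ (∀ w, t w ∈ M) ∧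
      (∀ w, ∀ z ∈ M, t (z * w) = z * t w) ∧ (∀ w ∈ UU 𝒩, t w = D.h M w) := by
    intro M
    by_cases hM : D.Cl M
    · obtain ⟨t, ht⟩ := totalise M (UU 𝒩) (D.h M) (hS.s1 M hM) (hS.s2 M hM) (hS.s3 M hM)
      exact ⟨t, fun _ => ht⟩
    · exact ⟨id, fun h => absurd h hM⟩
  choose ht hht using hht
  have hB : ∀ w, ∃ B : ℕ, b w ≤ B ∧ ∀ N ∈ 𝒩, D.c ((lN N w)⁻¹ * w) < B := by
    intro w
    obtain ⟨B1, hB1⟩ := (hS.fin.image (fun N => D.c ((lN N w)⁻¹ * w))).bddAbove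
    refine ⟨b w + B1 + 1, by omega, fun N hN => ?_⟩
    have := hB1 ⟨N, hN, rfl⟩
    simp only at this
    omega
  choose B hB using hB
  have he : ∀ η, ∃ a, a ∈ V (η + 1) ∧ (¬ V (η + 1) ≤ V η → a ∉ V η) := by
    intro η
    by_cases h : V (η + 1) ≤ V η
    · exact ⟨1, one_mem _, fun h' => absurd h h'⟩
    · obtain ⟨a, ha, ha'⟩ := SetLike.not_le_iff_exists.1 h
      exact ⟨a, ha, fun _ => ha'⟩
  choose e he using he
  refine ⟨⟨idx, wt, W, 𝒩, D, b, fun M => M ≤ W ∧ CC (C1 idx W 𝒩 C iw) M, V, ht,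
    fun w => max (B w) (B w⁻¹), e⟩, ?_, rfl, rfl, rfl, rfl, rfl, rfl⟩
  refine ⟨hS, hI, hCl, ?_, ?_, ?_, ?_, ?_, ?_, ?_, ?_, ?_, ?_, ?_, ?_, ?_, ?_, ?_, ?_, ?_, ?_,
    ?_, ?_, ?_, ?_, ?_⟩
  · -- K_le
    exact fun M hM => hM.1
  · -- K_cl
    exact fun M hM => hcl M hM.1 hM.2
  · -- K_l
    intro M hM N hN w hw
    refine hM.2 {w} (by simpa using hw) (Or.inl (Or.inl (Or.inr ?_)))
    simp only [Set.mem_iUnion]
    exact ⟨N, hN, w, by simp, rfl⟩
  · -- K_0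
    intro M hM
    refine cl_le ?_ hM.2
    rintro w ⟨_, hw | hw⟩
    · exact absurd hw not_lt_zero
    · exact absurd hw not_lt_zero
  · -- K_mu
    intro M hM μ hμ hsub
    refine cl_le ?_ hM.2
    rintro w ⟨hwW, hw | hw⟩
    · exact hsub w hw
    · obtain ⟨a, ha⟩ := hsurj (iw w) ((hiw w hwW).trans_le (Cardinal.ord_le_ord.2 hCW))
      have haM : a ∈ M := hsub a (show idx a < μ.ord by rw [ha]; exact hw)
      refine hM.2 {a} (by simpa using haM) (Or.inl (Or.inr ⟨hwW, a, by simp, ha.symm⟩))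
  · -- K_inf
    rintro M M2 ⟨a1, a2⟩ ⟨b1, b2⟩
    exact ⟨inf_le_left.trans a1, a2.inf b2⟩
  · -- K_V
    exact fun ζ => ⟨hVW ζ, hVC ζ⟩
  · -- K_club
    exact ⟨C1 idx W 𝒩 C iw, hC1c, fun ζ => hVC ζ, fun M hM hMC => ⟨hM, hMC⟩⟩
  · -- V_mono
    exact fun ζ ζ' h => cl_mono (hAmono h)
  · -- V_lim
    intro ζ w hw hw0
    have hζ : 0 < ζ := by
      rw [pos_iff_ne_zero]
      rintro rfl
      exact hw0 hw
    have hmono : Monotone (fun η : Ordinal.{0} => Ach idx W iw (η + 1)) := fun a b hab =>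
      hAmono (by gcongr)
    refine cl_cont hmono hζ ?_ hw
    rintro a ⟨haW, ha | ha⟩
    · exact Set.mem_iUnion.2 ⟨⟨idx a, ha⟩, haW, Or.inl (Order.lt_succ _)⟩
    · exact Set.mem_iUnion.2 ⟨⟨iw a, ha⟩, haW, Or.inr (Order.lt_succ _)⟩
  · -- V_top
    refine le_antisymm (hVW _) fun w hw => subset_cl ⟨hw, Or.inr (hiw w hw)⟩
  · -- V_idx
    intro ζ a haW ha
    exact subset_cl ⟨haW, Or.inl ha⟩
  · -- V_om
    intro a ha
    exact hVC 0 ∅ (by simp) (Or.inr ha)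
  · -- V_card
    intro ζ
    refine mk_cl hC1c (le_max_left _ _) ?_
    have h1 : Ach idx W iw ζ ⊆ {w | idx w < ζ} ∪ {w | w ∈ W ∧ iw w < ζ} := by
      rintro w ⟨hwW, hw | hw⟩
      · exact Or.inl hw
      · exact Or.inr ⟨hwW, hw⟩
    refine (Cardinal.mk_le_mk_of_subset h1).trans ((Cardinal.mk_union_le _ _).trans ?_)
    refine Cardinal.add_le_of_le (le_max_left _ _) ?_ ?_
    · exact (mk_inj_le _ idx ζ hidx.injOn fun a ha => ha).trans (le_max_right _ _)
    · exact (mk_inj_le _ iw ζ (hiwinj.mono fun w hw => hw.1) fun a ha => ha.2).trans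
        (le_max_right _ _)
  · exact fun M hM => (hht M hM).1
  · exact fun M hM => (hht M hM).2.1
  · exact fun M hM => (hht M hM).2.2.1
  · exact fun M hM => (hht M hM).2.2.2
  · exact fun w => (hB w).1.trans (le_max_left _ _)
  · exact fun w N hN => ((hB w).2 N hN).trans_le (le_max_left _ _)
  · intro w
    show max (B w⁻¹) (B w⁻¹⁻¹) = max (B w) (B w⁻¹)
    rw [inv_inv, max_comm]
  · exact fun η => (he η).1
  · exact fun η => (he η).2

/-- the extension theorem. -/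
theorem ext_all (idx : G → Ordinal.{0}) (hidx : Function.Injective idx)
    (hsurj : ∀ o < (Cardinal.mk G).ord, ∃ a, idx a = o) (wt : Cardinal.{0} → ℕ) :
    ∀ (κ : Cardinal.{0}) (W : Subgroup G), Cardinal.mk W = κ → ExtProp idx wt W := by
  intro κ
  induction κ using WellFoundedLT.induction with
  | _ κ IH =>
    intro W hWκ
    rcases le_or_gt (Cardinal.mk W) ℵ₀ with hc | hc
    · exact ext_countable idx wt W hc
    intro 𝒩 D b hS hI hCl
    obtain ⟨X, hX, rfl, rfl, rfl, rfl, rfl, rfl⟩ := exists_ctx idx hidx hsurj wt W 𝒩 D b hS hI hCl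
    refine Ctx.ext_of_inner hX fun η hη => ?_
    refine IH (Cardinal.mk (X.V (η + 1))) ?_ _ rfl
    rw [← hWκ]
    refine (hX.V_card _).trans_lt (max_lt hc ?_)
    rw [← Cardinal.lt_ord]
    have hlim := Cardinal.isSuccLimit_ord hc.le
    exact hlim.succ_lt hη

end Pool.Agent.CountPart
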