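import Pool.Agent.helper46.CountPart.Basic

set_option autoImplicit false

open Cardinal Order

namespace Pool.Agent.CountPart

variable {G : Type} [Group G]

/-- `M` is closed under the finitary multi-valued operation `C`. -/
def CC (C : Finset G → Set G) (M : Subgroup G) : Prop :=
  ∀ s : Finset G, (s : Set G) ⊆ M → C s ⊆ M

/-- the closure of `A`. -/
def cl (C : Finset G → Set G) (A : Set G) : Subgroup G := sInf {M | A ⊆ M ∧ CC C M}

variable {C : Finset G → Set G} {A B : Set G}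

lemma subset_cl : A ⊆ cl C A := by
  intro a ha
  rw [cl, SetLike.mem_coe, Subgroup.mem_sInf]
  intro M hM
  exact hM.1 ha

lemma cl_closed : CC C (cl C A) := by
  intro s hs a ha
  rw [cl, SetLike.mem_coe, Subgroup.mem_sInf]
  intro M hM
  have h1 : sInf {M : Subgroup G | A ⊆ (M : Set G) ∧ CC C M} ≤ M := sInf_le hM
  exact hM.2 s (fun x hx => h1 (hs hx)) ha

lemma cl_le {M : Subgroup G} (h1 : A ⊆ M) (h2 : CC C M) : cl C A ≤ M := sInf_le ⟨h1, h2⟩

lemma cl_mono (h : A ⊆ B) : cl C A ≤ cl C B := cl_le (h.trans subset_cl) cl_closed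

lemma CC.inf {M M2 : Subgroup G} (h1 : CC C M) (h2 : CC C M2) : CC C (M ⊓ M2) := by
  intro s hs
  have hs' : (s : Set G) ⊆ M ∧ (s : Set G) ⊆ M2 := by
    constructor
    · exact hs.trans (fun _ h => h.1)
    · exact hs.trans (fun _ h => h.2)
  intro a ha
  exact ⟨h1 s hs'.1 ha, h2 s hs'.2 ha⟩

/-- one step of the iteration. -/
def stepC (C : Finset G → Set G) (X : Set G) : Set G :=
  X ∪ ⋃ s : Finset X, (C (s.map (Function.Embedding.subtype _)) ∪ {1} ∪
    (fun p : G × G => p.1 * p.2) '' ((s.map (Function.Embedding.subtype _) : Finset G) ×ˢ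
      (s.map (Function.Embedding.subtype _) : Finset G) : Set (G × G)) ∪
    (fun a : G => a⁻¹) '' ((s.map (Function.Embedding.subtype _) : Finset G) : Set G))

lemma mk_finset_le (X : Type) : Cardinal.mk (Finset X) ≤ max ℵ₀ (Cardinal.mk X) := by
  rcases finite_or_infinite X with h | h
  · exact le_max_of_le_left (Cardinal.lt_aleph0_of_finite _).le
  · rw [Cardinal.mk_finset_of_infinite]; exact le_max_right _ _

lemma mk_stepC (hC : ∀ s, (C s).Countable) (X : Set G) {κ : Cardinal.{0}} (hκ : ℵ₀ ≤ κ)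
    (hX : Cardinal.mk X ≤ κ) : Cardinal.mk (stepC C X) ≤ κ := by
  refine (Cardinal.mk_union_le _ _).trans ?_
  refine Cardinal.add_le_of_le hκ hX ?_
  refine (Cardinal.mk_iUnion_le _).trans ?_
  refine Cardinal.mul_le_of_le hκ ((mk_finset_le X).trans (max_le hκ hX)) ?_
  refine (ciSup_le' fun s => ?_ : _ ≤ ℵ₀).trans hκ
  rw [Cardinal.le_aleph0_iff_set_countable]
  refine (((hC _).union (Set.countable_singleton _)).union ?_).union ?_
  · exact Set.Countable.image (Set.Finite.countable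
      (Set.Finite.prod (Finset.finite_toSet _) (Finset.finite_toSet _))) _
  · exact Set.Countable.image (Finset.countable_toSet _) _

/-- iteration. -/
def iterC (C : Finset G → Set G) (A : Set G) : ℕ → Set G
  | 0 => A
  | (n + 1) => stepC C (iterC C A n)

lemma iterC_mono : Monotone (iterC C A) := by
  refine monotone_nat_of_le_succ fun n => ?_
  exact Set.subset_union_left

lemma mem_stepC {X : Set G} (s : Finset G) (hs : (s : Set G) ⊆ X) (a : G)
    (ha : a ∈ C s ∨ a = 1 ∨ (∃ x ∈ s, ∃ y ∈ s, a = x * y) ∨ (∃ x ∈ s, a = x⁻¹)) :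
    a ∈ stepC C X := by
  classical
  right
  rw [Set.mem_iUnion]
  let t : Finset X := s.subtype (· ∈ X)
  have ht : t.map (Function.Embedding.subtype _) = s := by
    ext x
    simp only [t, Finset.mem_map, Finset.mem_subtype, Function.Embedding.coe_subtype,
      Subtype.exists, exists_and_left, exists_prop, exists_eq_right_right]
    constructor
    · rintro ⟨h, _⟩; exact h
    · intro h; exact ⟨h, hs h⟩
  refine ⟨t, ?_⟩
  rw [ht]
  rcases ha with ha | ha | ⟨x, hx, y, hy, rfl⟩ | ⟨x, hx, rfl⟩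
  · exact Or.inl (Or.inl (Or.inl ha))
  · exact Or.inl (Or.inl (Or.inr ha))
  · exact Or.inl (Or.inr ⟨(x, y), ⟨hx, hy⟩, rfl⟩)
  · exact Or.inr ⟨x, hx, rfl⟩

omit [Group G] in
lemma exists_of_finset {X : ℕ → Set G} (hX : Monotone X) (s : Finset G)
    (hs : (s : Set G) ⊆ ⋃ n, X n) : ∃ n, (s : Set G) ⊆ X n := by
  classical
  induction s using Finset.induction_on with
  | empty => exact ⟨0, by simp⟩
  | insert a s ha IH =>
    rw [Finset.coe_insert, Set.insert_subset_iff] at hs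
    obtain ⟨n, hn⟩ := IH hs.2
    obtain ⟨m, hm⟩ := Set.mem_iUnion.1 hs.1
    refine ⟨max n m, ?_⟩
    rw [Finset.coe_insert, Set.insert_subset_iff]
    exact ⟨hX (le_max_right _ _) hm, hn.trans (hX (le_max_left _ _))⟩

/-- the union of the iteration as a subgroup. -/
def iterSub (C : Finset G → Set G) (A : Set G) : Subgroup G where
  carrier := ⋃ n, iterC C A n
  mul_mem' := by
    classical
    intro a b ha hb
    obtain ⟨n, hn⟩ := exists_of_finset (iterC_mono (C := C) (A := A)) {a, b} (by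
      intro x hx
      simp only [Finset.coe_insert, Finset.coe_singleton, Set.mem_insert_iff,
        Set.mem_singleton_iff] at hx
      rcases hx with rfl | rfl
      · exact ha
      · exact hb)
    exact Set.mem_iUnion.2 ⟨n + 1, mem_stepC {a, b} hn _
      (Or.inr (Or.inr (Or.inl ⟨a, by simp, b, by simp, rfl⟩)))⟩
  one_mem' := Set.mem_iUnion.2 ⟨1, mem_stepC ∅ (by simp) _ (Or.inr (Or.inl rfl))⟩
  inv_mem' := by
    intro a ha
    obtain ⟨n, hn⟩ := Set.mem_iUnion.1 ha
    exact Set.mem_iUnion.2 ⟨n + 1, mem_stepC {a} (by simpa using hn) _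
      (Or.inr (Or.inr (Or.inr ⟨a, by simp, rfl⟩)))⟩

lemma cl_le_iterSub : cl C A ≤ iterSub C A := by
  refine cl_le ?_ ?_
  · exact fun a ha => Set.mem_iUnion.2 ⟨0, ha⟩
  · intro s hs a ha
    obtain ⟨n, hn⟩ := exists_of_finset (iterC_mono (C := C) (A := A)) s hs
    exact Set.mem_iUnion.2 ⟨n + 1, mem_stepC s hn _ (Or.inl ha)⟩

lemma mk_iterSub (hC : ∀ s, (C s).Countable) {κ : Cardinal.{0}} (hκ : ℵ₀ ≤ κ)
    (hX : Cardinal.mk A ≤ κ) : Cardinal.mk (iterSub C A) ≤ κ := by
  have h1 : ∀ n, Cardinal.mk (iterC C A n) ≤ κ := by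
    intro n
    induction n with
    | zero => exact hX
    | succ n IH => exact mk_stepC hC _ hκ IH
  have : Cardinal.mk (⋃ n, iterC C A n : Set G) ≤ κ := by
    refine (Cardinal.mk_iUnion_le _).trans ?_
    refine Cardinal.mul_le_of_le hκ (by simpa using hκ) ?_
    exact ciSup_le' h1
  exact this

theorem mk_cl (hC : ∀ s, (C s).Countable) {κ : Cardinal.{0}} (hκ : ℵ₀ ≤ κ)
    (hX : Cardinal.mk A ≤ κ) : Cardinal.mk (cl C A) ≤ κ :=
  (Cardinal.mk_le_mk_of_subset (cl_le_iterSub (C := C) (A := A))).trans (mk_iterSub hC hκ hX)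

/-- continuity of the closure along an increasing chain. -/
theorem cl_cont {A : Ordinal.{0} → Set G} (hA : Monotone A) {ζ : Ordinal.{0}} (hζ : 0 < ζ)
    {X : Set G} (hX : X ⊆ ⋃ η : Set.Iio ζ, A η) {w : G} (hw : w ∈ cl C X) :
    ∃ η < ζ, w ∈ cl C (A η) := by
  classical
  have : Nonempty (Set.Iio ζ) := ⟨⟨0, hζ⟩⟩
  have hdir : Directed (· ≤ ·) (fun η : Set.Iio ζ => cl C (A η)) :=
    Monotone.directed_le fun a b hab => cl_mono (hA hab)
  have hmem : ∀ x, x ∈ (⨆ η : Set.Iio ζ, cl C (A η)) ↔ ∃ η : Set.Iio ζ, x ∈ cl C (A η) :=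
    fun x => Subgroup.mem_iSup_of_directed hdir
  have hfin : ∀ s : Finset G, (s : Set G) ⊆ (⨆ η : Set.Iio ζ, cl C (A η) : Subgroup G) →
      ∃ η : Set.Iio ζ, (s : Set G) ⊆ cl C (A η) := by
    intro s
    induction s using Finset.induction_on with
    | empty => intro _; exact ⟨⟨0, hζ⟩, by simp⟩
    | insert a s ha IH =>
      intro hs
      rw [Finset.coe_insert, Set.insert_subset_iff] at hs
      obtain ⟨η, hη⟩ := IH hs.2
      obtain ⟨θ, hθ⟩ := (hmem a).1 hs.1
      obtain ⟨χ, h1, h2⟩ := hdir η θ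
      refine ⟨χ, ?_⟩
      rw [Finset.coe_insert, Set.insert_subset_iff]
      exact ⟨h2 hθ, hη.trans h1⟩
  have hle : cl C X ≤ ⨆ η : Set.Iio ζ, cl C (A η) := by
    refine cl_le ?_ ?_
    · intro a ha
      obtain ⟨η, hη⟩ := Set.mem_iUnion.1 (hX ha)
      exact (hmem a).2 ⟨η, subset_cl hη⟩
    · intro s hs a ha
      obtain ⟨η, hη⟩ := hfin s hs
      exact (hmem a).2 ⟨η, cl_closed s hη ha⟩
  obtain ⟨η, hη⟩ := (hmem w).1 (hle hw)
  exact ⟨η.1, η.2, hη⟩

end Pool.Agent.CountPart
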