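import Pool.Agent.helper46.CountPart.Inner

set_option autoImplicit false
set_option linter.unusedSectionVars false

open Cardinal Order

namespace Pool.Agent.CountPart

variable {G : Type} [Group G]

/-- The extension property of `W`. -/
def ExtProp (idx : G → Ordinal.{0}) (wt : Cardinal.{0} → ℕ) (W : Subgroup G) : Prop :=
  ∀ (𝒩 : Set (Subgroup G)) (D : Dat G) (b : G → ℕ), Sys W 𝒩 D → Inc idx W 𝒩 →
    Claim idx wt 𝒩 D → ∃ D' : Dat G, Sys W {W} D' ∧ Claim idx wt {W} D' ∧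
      (∀ M, D'.Cl M → D.Cl M) ∧ (∀ w ∈ UU 𝒩, D'.c w = D.c w) ∧
      (∀ M, D'.Cl M → ∀ w ∈ UU 𝒩, D'.h M w = D.h M w) ∧
      (∀ w ∈ W, w ∉ UU 𝒩 → b w ≤ D'.c w)

namespace Ctx

variable {X : Ctx G} (hX : X.OK)

include hX

section locality

variable {out : Ordinal.{0} → Dat G} {η : Ordinal.{0}}

lemma hG_tr {M : Subgroup G} (hM : X.K M) :
    ∀ w, w ∈ X.V η → X.hG (tr η out) M w = X.hG out M w := by
  intro w
  induction hl : X.lev w using WellFoundedLT.induction generalizing w with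
  | _ l IH =>
    subst hl
    intro hw
    by_cases hT : X.T M w
    · rw [hG_T hT, hG_T hT]
    have hw0 : w ∉ X.V 0 := fun h => hT (Or.inl (hX.K_0 M hM h))
    obtain ⟨l1, l2, l3⟩ := lev_spec hX hw hw0
    by_cases hL : X.Lev M (X.lev w)
    · rw [hG_lev hT hL, hG_lev hT hL, tr_lt _ l3]
    · rw [hG_rec hX hM hT hL, hG_rec hX hM hT hL]
      have hq : X.ht (X.V (X.lev w)) w ∈ X.V (X.lev w) := hX.ht2 _ (hX.K_cl _ (hX.K_V _)) w
      by_cases hq0 : X.ht (X.V (X.lev w)) w ∈ X.V 0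
      · rw [hG_mem hX hM (hX.K_0 M hM hq0), hG_mem hX hM (hX.K_0 M hM hq0)]
      · exact IH _ (lev_spec hX hq hq0).2.2 _ rfl (hX.V_mono l3.le hq)

lemma cG_tr {w : G} (hw : w ∈ UU X.𝒩 ∨ w ∈ X.V η) : X.cG (tr η out) w = X.cG out w := by
  by_cases hU : w ∈ UU X.𝒩
  · rw [cG_U hX hU, cG_U hX hU]
  have hwV := hw.resolve_left hU
  by_cases hw0 : w ∈ X.V 0
  · rw [cG, if_neg hU, if_pos hw0, cG, if_neg hU, if_pos hw0]
  · obtain ⟨l1, l2, l3⟩ := lev_spec hX hwV hw0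
    rw [cG, if_neg hU, if_neg hw0, cG, if_neg hU, if_neg hw0, tr_lt _ l3]

omit hX in
lemma ClS_tr {M : Subgroup G} : X.ClS (tr η out) η M ↔ X.ClS out η M := by
  constructor
  · rintro ⟨h1, h2⟩
    refine ⟨h1, fun ζ hζ hL => ?_⟩
    have := h2 ζ hζ hL
    rwa [tr_lt _ hζ] at this
  · rintro ⟨h1, h2⟩
    refine ⟨h1, fun ζ hζ hL => ?_⟩
    have := h2 ζ hζ hL
    rwa [tr_lt _ hζ]

/-- the reduction of a new element modulo a subgroup not meeting its level. -/
lemma new_mem (hg : ∀ ζ < η, X.Good out ζ) {M : Subgroup G} (hM : X.ClS out η M)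
    (hL : ¬ X.Lev M η) {w : G} (hw : w ∈ X.V (η + 1)) (hw' : w ∉ X.V η) :
    X.hG out M w ∈ X.V η := by
  have hlow : ∀ a ∈ M, a ∈ X.V (η + 1) → a ∈ X.V η := by
    intro a ha ha'
    by_contra h
    exact hL (Lev_iff.2 ⟨a, ha, ha', h⟩)
  by_cases hT : X.T M w
  · rw [hG_T hT]
    rcases hT with hT | ⟨N, hN, hT⟩
    · exact absurd (hlow w hT hw) hw'
    · have h1 : w = lN N w * ((lN N w)⁻¹ * w) := by group
      have h2 : (lN N w)⁻¹ * w ∈ UU X.𝒩 := ⟨N, hN, lN_inv_mul N w⟩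
      have h3 : lN N w ∈ X.V (η + 1) := hX.K_l _ (hX.K_V _) N hN w hw
      have h4 : (lN N w)⁻¹ * w ∈ X.V (η + 1) := mul_mem (inv_mem h3) hw
      rw [h1, hX.ht3 M (hX.K_cl M hM.1) _ _ hT, hX.ht4 M (hX.K_cl M hM.1) _ h2]
      refine mul_mem (hlow _ hT h3) ?_
      rw [hX.sys.s7 M _ (hX.K_cl M hM.1) (hX.K_cl _ (hX.K_V (η + 1))) _ h2 h4]
      have := hX.sys.s2 _ (hX.K_cl _ (hX.K_inf _ _ hM.1 (hX.K_V (η + 1)))) _ h2
      exact hlow _ this.1 this.2
  · have hl : X.lev w = η := lev_eq hX hw hw'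
    have hq : X.ht (X.V η) w ∈ X.V η := hX.ht2 _ (hX.K_cl _ (hX.K_V _)) w
    rw [hG_rec hX hM.1 hT (by rw [hl]; exact hL), hl]
    exact S2V hX hg hM hq hq

lemma hG_tr_new {M : Subgroup G} (hM : X.K M)
    (hL : ¬ X.Lev M η) {w : G} (hw : w ∈ X.V (η + 1)) (hw' : w ∉ X.V η) :
    X.hG (tr η out) M w = X.hG out M w := by
  by_cases hT : X.T M w
  · rw [hG_T hT, hG_T hT]
  · have hl : X.lev w = η := lev_eq hX hw hw'
    have hq : X.ht (X.V η) w ∈ X.V η := hX.ht2 _ (hX.K_cl _ (hX.K_V _)) w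
    rw [hG_rec hX hM hT (by rw [hl]; exact hL), hG_rec hX hM hT (by rw [hl]; exact hL), hl]
    exact hG_tr hX hM _ hq

lemma goodQ_of_tr (hg : ∀ ζ < η, X.Good out ζ) {o : Dat G} (h : X.GoodQ η (tr η out) o) :
    X.GoodQ η out o where
  sys := h.sys
  claim := h.claim
  g2 M hM := by
    obtain ⟨a1, a2, a3, a4⟩ := h.g2 M hM
    exact ⟨a1, ClS_tr.1 a2, a3, a4⟩
  g3 w hw hw' := by rw [h.g3 w hw hw', cG_tr hX hw']
  g4 M hM w hw hw' := by
    rw [h.g4 M hM w hw hw']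
    have hK := (h.g2 M hM).2.1.1
    rcases hw' with hw' | hw'
    · rw [hG_U hX hK hw', hG_U hX hK hw']
    · exact hG_tr hX hK w hw'
  g5b := h.g5b
  g5w := h.g5w
  g5N := h.g5N
  g5h w hw hU hw' M hM hL := by
    have h1 := h.g5h w hw hU hw' M (ClS_tr.2 hM) hL
    rw [hG_tr_new hX hM.1 hL hw hw', cG_tr hX (Or.inr (new_mem hX hg hM hL hw hw'))] at h1
    exact h1

lemma good_of_tr : ∀ ξ : Ordinal.{0}, (∀ η < ξ, X.GoodQ η (tr η out) (out η)) →
    ∀ η < ξ, X.Good out η := by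
  intro ξ h η
  induction η using WellFoundedLT.induction with
  | _ η IH =>
    intro hη
    exact goodQ_of_tr hX (fun ζ hζ => IH ζ hζ (hζ.trans hη)) (h η hη)

end locality

/-- existence of all the inner data. -/
theorem exists_out (hext : ∀ η < (Cardinal.mk X.W).ord, ExtProp X.idx X.wt (X.V (η + 1))) :
    ∃ out : Ordinal.{0} → Dat G, ∀ η < (Cardinal.mk X.W).ord, X.Good out η := by
  classical
  obtain ⟨out, hout⟩ := dep_choice (α := Dat G)
    (fun η p o => η < (Cardinal.mk X.W).ord → X.GoodQ η p o) (by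
      intro η f hf
      by_cases hη : η < (Cardinal.mk X.W).ord
      swap
      · exact ⟨default, fun h => absurd h hη⟩
      have hg : ∀ ζ < η, X.Good (tr η f) ζ := by
        refine good_of_tr hX η fun ζ hζ => ?_
        rw [tr_tr f hζ.le, tr_lt f hζ]
        exact hf ζ hζ (hζ.trans hη)
      have hb : ∀ w, ∃ B : ℕ, w ∈ X.V (η + 1) → w ∉ UU X.𝒩 → w ∉ X.V η →
          (X.b w ≤ B ∧ X.wt η.card ≤ B ∧ (∀ N ∈ X.𝒩, X.D.c ((lN N w)⁻¹ * w) < B) ∧
          ∀ M, X.ClS (tr η f) η M → ¬ X.Lev M η →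
            X.cG (tr η f) (X.hG (tr η f) M w) < B) := by
        intro w
        by_cases hw : w ∈ X.V (η + 1) ∧ w ∉ UU X.𝒩 ∧ w ∉ X.V η
        swap
        · exact ⟨0, fun a b c => absurd ⟨a, b, c⟩ hw⟩
        obtain ⟨B1, hB1⟩ := (hX.sys.fin.image (fun N => X.D.c ((lN N w)⁻¹ * w))).bddAbove
        obtain ⟨B2, hB2⟩ := ((fin_new hX hg hw.1 hw.2.2).image
          (fun t => X.cG (tr η f) t)).bddAbove
        refine ⟨X.b w + X.wt η.card + B1 + B2 + 1, fun _ _ _ =>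
          ⟨by omega, by omega, fun N hN => ?_, fun M hM hL => ?_⟩⟩
        · have := hB1 ⟨N, hN, rfl⟩
          simp only at this
          omega
        · have := hB2 ⟨_, ⟨M, hM, hL, rfl⟩, rfl⟩
          simp only at this
          omega
      choose B hB using hb
      obtain ⟨D', d1, d2, d3, d4, d5, d6⟩ := hext η hη (X.Nin η) (X.Din (tr η f) η) B
        (sysI hX hg) (incI hX hη) (claimI hX hg)
      have hnU : ∀ w ∈ X.V (η + 1), w ∉ UU X.𝒩 → w ∉ X.V η → w ∉ UU (X.Nin η) := by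
        intro w hw h1 h2 h3
        rw [mem_UU_Nin hX] at h3
        rcases h3.2 with h | h
        · exact h1 h
        · exact h2 h
      refine ⟨D', fun _ => ⟨d1, d2, d3, ?_, ?_, ?_, ?_, ?_, ?_⟩⟩
      · intro w hw hw'
        exact d4 w ((mem_UU_Nin hX).2 ⟨hw, hw'⟩)
      · intro M hM w hw hw'
        exact d5 M hM w ((mem_UU_Nin hX).2 ⟨hw, hw'⟩)
      · intro w hw h1 h2
        exact (hB w hw h1 h2).1.trans (d6 w hw (hnU w hw h1 h2))
      · intro w hw h1 h2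
        exact (hB w hw h1 h2).2.1.trans (d6 w hw (hnU w hw h1 h2))
      · intro w hw h1 h2 N hN
        exact ((hB w hw h1 h2).2.2.1 N hN).trans_le (d6 w hw (hnU w hw h1 h2))
      · intro w hw h1 h2 M hM hL
        exact ((hB w hw h1 h2).2.2.2 M hM hL).trans_le (d6 w hw (hnU w hw h1 h2)))
  refine ⟨out, good_of_tr hX _ fun η hη => hout η hη⟩

/-- the extension property from the inner ones. -/
theorem ext_of_inner (hext : ∀ η < (Cardinal.mk X.W).ord, ExtProp X.idx X.wt (X.V (η + 1))) :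
    ∃ D' : Dat G, Sys X.W {X.W} D' ∧ Claim X.idx X.wt {X.W} D' ∧
      (∀ M, D'.Cl M → X.D.Cl M) ∧ (∀ w ∈ UU X.𝒩, D'.c w = X.D.c w) ∧
      (∀ M, D'.Cl M → ∀ w ∈ UU X.𝒩, D'.h M w = X.D.h M w) ∧
      (∀ w ∈ X.W, w ∉ UU X.𝒩 → X.b w ≤ D'.c w) := by
  obtain ⟨out, hg⟩ := exists_out hX hext
  have hVW : X.V ((Cardinal.mk X.W).ord + 1) = X.W := by
    refine le_antisymm (hX.K_le _ (hX.K_V _)) ?_
    conv_lhs => rw [← hX.V_top]
    exact hX.V_mono (Order.le_succ _)
  have S := sysI hX hg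
  have hC := claimI hX hg
  have hUU : ∀ w, w ∈ UU (X.Nin (Cardinal.mk X.W).ord) ↔ w ∈ UU ({X.W} : Set (Subgroup G)) := by
    intro w
    rw [mem_UU_Nin hX, mem_UU_singleton, hVW, hX.V_top]
    exact ⟨fun h => h.1, fun h => ⟨h, Or.inr h⟩⟩
  have hWN : X.W ∈ X.Nin (Cardinal.mk X.W).ord := by
    right
    rw [Set.mem_singleton_iff, hX.V_top]
  refine ⟨X.Din out (Cardinal.mk X.W).ord, ?_, ?_, ?_, ?_, ?_, ?_⟩
  · refine ⟨Set.finite_singleton _, ?_, ?_, ?_, S.clInf, ?_, ?_, ?_, ?_, ?_, ?_, ?_, ?_, ?_⟩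
    · rintro N hN
      rw [Set.mem_singleton_iff] at hN
      rw [hN]
    · intro M hM
      have := S.clLe M hM
      rwa [hVW] at this
    · have := S.clW
      rwa [hVW] at this
    · have := S.club
      rwa [hVW] at this
    · intro M hM w hw
      exact S.s1 M hM w ((hUU w).2 hw)
    · intro M hM w hw
      exact S.s2 M hM w ((hUU w).2 hw)
    · intro M hM w hw z hz hzw
      exact S.s3 M hM w ((hUU w).2 hw) z hz ((hUU _).2 hzw)
    · intro M hM w hw
      exact S.s4 M hM w ((hUU w).2 hw)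
    · intro w hw
      exact S.s5 w ((hUU w).2 hw)
    · intro M hM N hN
      rw [Set.mem_singleton_iff] at hN
      rw [hN]
      exact S.s5c M hM X.W hWN
    · intro w hw
      exact S.s6 w ((hUU w).2 hw)
    · intro M M2 hM hM2 w hw
      exact S.s7 M M2 hM hM2 w ((hUU w).2 hw)
  · intro N k μ M g Sc f hf x hx y hy
    exact hC N k μ M g Sc f hf x ((hUU x).2 hx) y ((hUU y).2 hy)
  · intro M hM
    exact hX.K_cl _ hM.2.1.1
  · intro w hw
    exact cG_U hX hw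
  · intro M hM w hw
    exact hG_U hX hM.2.1.1 hw
  · intro w hw hU
    show X.b w ≤ X.cG out w
    by_cases hw0 : w ∈ X.V 0
    · rw [cG, if_neg hU, if_pos hw0]
      exact hX.base1 w
    · rw [← hX.V_top] at hw
      obtain ⟨l1, l2, l3⟩ := lev_spec hX hw hw0
      rw [cG_V hX hg l3 l1]
      exact (hg _ l3).g5b w l1 hU l2

end Ctx

/-- the countable case. -/
theorem ext_countable (idx : G → Ordinal.{0}) (wt : Cardinal.{0} → ℕ) (W : Subgroup G)
    (hW : Cardinal.mk W ≤ ℵ₀) : ExtProp idx wt W := by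
  classical
  intro 𝒩 D b hS hI hC
  have hUsym : ∀ w, w⁻¹ ∈ UU 𝒩 ↔ w ∈ UU 𝒩 := by
    intro w
    constructor
    · rintro ⟨N, hN, h⟩; exact ⟨N, hN, by simpa using inv_mem h⟩
    · rintro ⟨N, hN, h⟩; exact ⟨N, hN, inv_mem h⟩
  refine ⟨⟨fun M => M = W, fun w => if w ∈ UU 𝒩 then D.c w else max (b w) (b w⁻¹),
    fun _ w => w⟩, ?_, ?_, ?_, ?_, ?_, ?_⟩
  · refine ⟨Set.finite_singleton _, ?_, ?_, rfl, ?_, ?_, ?_, ?_, ?_, ?_, ?_, ?_, ?_, ?_⟩
    · rintro N hN
      rw [Set.mem_singleton_iff] at hN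
      rw [hN]
    · rintro M rfl; exact le_rfl
    · rintro M M2 rfl rfl; exact inf_idem _
    · refine ⟨fun _ => (W : Set G), fun _ => ?_, fun _ _ => le_rfl, ?_⟩
      · exact (Cardinal.le_aleph0_iff_set_countable).1 hW
      · intro M hM h
        exact le_antisymm hM (h ∅ (by simp))
    · intros; rfl
    · rintro M rfl w hw; exact (mem_UU_singleton _ _).1 hw
    · intros; rfl
    · rintro M rfl w hw h; exact absurd ((mem_UU_singleton _ _).1 hw) h
    · intro w hw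
      refine (Set.finite_singleton w).subset ?_
      rintro t ⟨M, _, rfl⟩
      rfl
    · intro M hM N hN w hw; exact hw
    · intro w hw
      simp only [hUsym, inv_inv]
      split_ifs with h
      · exact hS.s6 w h
      · exact max_comm _ _
    · intros; rfl
  · intro N k μ M g S f hf x hx y hy hxk _ _ heq
    obtain ⟨K, rfl⟩ : ∃ K, k = K + 1 := ⟨k - 1, by omega⟩
    have hMK : M K = W := S.cl K (by omega)
    have h1 : x * y⁻¹ ∈ M K := by
      rw [hMK]
      exact mul_mem ((mem_UU_singleton _ _).1 hx) (inv_mem ((mem_UU_singleton _ _).1 hy))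
    rw [← heq] at h1
    have hpt : f * pt g (K + 1) = (f * g K) * pt g K := by
      show f * (g K * pt g K) = _
      group
    rw [hpt] at h1
    have hptK : pt g K ∈ M K := S.pt_low (M K) (S.sub K (by omega))
    have h2 := mul_mem h1 (inv_mem hptK)
    rw [mul_inv_cancel_right] at h2
    have h3 := mul_mem (inv_mem (hf K (by omega))) h2
    rw [inv_mul_cancel_left] at h3
    exact S.gnot K (by omega) h3
  · rintro M rfl; exact hS.clW
  · intro w hw; simp [hw]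
  · rintro M rfl w hw
    obtain ⟨N, hN, h⟩ := hw
    exact (hS.s1 _ hS.clW w ⟨N, hN, h⟩ (hS.leW N hN h)).symm
  · intro w _ hw
    simp [hw]

lemma mk_inj_le (A : Set G) (f : G → Ordinal.{0}) (ζ : Ordinal.{0}) (hf : Set.InjOn f A)
    (hA : ∀ a ∈ A, f a < ζ) : Cardinal.mk A ≤ ζ.card := by
  have h1 : Cardinal.lift.{1} (Cardinal.mk A) ≤ Cardinal.lift.{0} (Cardinal.mk (Set.Iio ζ)) := by
    refine Cardinal.lift_mk_le'.2 ⟨⟨fun a => ⟨f a.1, hA a.1 a.2⟩, ?_⟩⟩
    intro a b hab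
    have : f a.1 = f b.1 := congrArg Subtype.val hab
    exact Subtype.ext (hf a.2 b.2 this)
  rw [Cardinal.mk_Iio_ordinal, Cardinal.lift_id'] at h1
  exact Cardinal.lift_le.1 h1

/-- an enumeration of a subgroup. -/
lemma exists_enum (W : Subgroup G) : ∃ f : G → Ordinal.{0},
    (∀ w ∈ W, f w < (Cardinal.mk W).ord) ∧ Set.InjOn f W := by
  classical
  obtain ⟨r, wo, hr⟩ := Cardinal.exists_ord_eq W
  refine ⟨fun w => if h : w ∈ W then Ordinal.typein r ⟨w, h⟩ else 0, ?_, ?_⟩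
  · intro w hw
    simp only [hw, dif_pos]
    rw [hr]
    exact Ordinal.typein_lt_type r _
  · intro a ha b hb hab
    have ha' : a ∈ W := ha
    have hb' : b ∈ W := hb
    simp only [ha', hb', dif_pos] at hab
    have := Ordinal.typein_injective r hab
    exact congrArg Subtype.val this

end Pool.Agent.CountPart
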