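import Pool.Agent.helper46.CountPart.Stage

set_option autoImplicit false
set_option linter.unusedSectionVars false

open Cardinal Order

namespace Pool.Agent.CountPart

variable {G : Type} [Group G]

namespace Ctx

variable (X : Ctx G)

/-- the family of subgroups of the inner system. -/
def Nin (ξ : Ordinal.{0}) : Set (Subgroup G) := (fun N => N ⊓ X.V (ξ + 1)) '' X.𝒩 ∪ {X.V ξ}

/-- the data of the inner system. -/
noncomputable def Din (out : Ordinal.{0} → Dat G) (ξ : Ordinal.{0}) : Dat G where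
  Cl := X.ClI out ξ
  c := X.cG out
  h := X.hG out

variable {X} (hX : X.OK)

include hX

lemma mem_UU_Nin {ξ : Ordinal.{0}} {w : G} :
    w ∈ UU (X.Nin ξ) ↔ w ∈ X.V (ξ + 1) ∧ (w ∈ UU X.𝒩 ∨ w ∈ X.V ξ) := by
  constructor
  · rintro ⟨N, hN, hw⟩
    rcases hN with ⟨N', hN', rfl⟩ | hN
    · exact ⟨hw.2, Or.inl ⟨N', hN', hw.1⟩⟩
    · rw [Set.mem_singleton_iff] at hN
      subst hN
      exact ⟨hX.V_mono (Order.le_succ ξ) hw, Or.inr hw⟩
  · rintro ⟨h1, ⟨N, hN, hw⟩ | hw⟩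
    · exact ⟨_, Or.inl ⟨N, hN, rfl⟩, hw, h1⟩
    · exact ⟨X.V ξ, Or.inr rfl, hw⟩

variable {out : Ordinal.{0} → Dat G} {ξ : Ordinal.{0}} (hg : ∀ η < ξ, X.Good out η)

include hg

lemma clubI : Club (X.V (ξ + 1)) (X.ClI out ξ) := by
  classical
  obtain ⟨CK, k1, k2, k3⟩ := hX.K_club
  have hC : ∀ η, ∃ C : Finset G → Set G, (∀ s, (C s).Countable) ∧ (η < ξ →
      (∀ s : Finset G, (s : Set G) ⊆ X.V (η + 1) → C s ⊆ X.V (η + 1)) ∧
      ∀ M : Subgroup G, M ≤ X.V (η + 1) → (∀ s : Finset G, (s : Set G) ⊆ M → C s ⊆ M) →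
        (out η).Cl M) := by
    intro η
    by_cases hη : η < ξ
    · obtain ⟨C, c1, c2, c3⟩ := (hg η hη).sys.club
      exact ⟨C, c1, fun _ => ⟨c2, c3⟩⟩
    · exact ⟨fun _ => ∅, fun _ => Set.countable_empty, fun h => absurd h hη⟩
  choose C c1 c2 using hC
  let C' : Finset G → Set G := fun s => CK s ∪ {X.e ξ} ∪ (X.ht (X.V ξ) '' (s : Set G)) ∪
    ⋃ w ∈ s, ⋃ t ∈ s.powerset, {u | u ∈ C (X.lev w) t ∧ X.lev w < ξ ∧
      (t : Set G) ⊆ X.V (X.lev w + 1)}
  refine ⟨C', ?_, ?_, ?_⟩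
  · intro s
    refine (((k1 s).union (Set.countable_singleton _)).union
      ((Finset.countable_toSet s).image _)).union ?_
    refine (Finset.countable_toSet s).biUnion fun w _ =>
      (Finset.countable_toSet s.powerset).biUnion fun t _ => ?_
    exact (c1 (X.lev w) t).mono fun u hu => hu.1
  · intro s hs u hu
    rcases hu with ((hu | hu) | hu) | hu
    · exact k2 _ s hs hu
    · rw [Set.mem_singleton_iff] at hu
      rw [hu]
      exact hX.e_mem ξ
    · obtain ⟨w, _, rfl⟩ := hu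
      exact hX.V_mono (Order.le_succ ξ) (hX.ht2 _ (hX.K_cl _ (hX.K_V ξ)) w)
    · simp only [Set.mem_iUnion] at hu
      obtain ⟨w, hw, t, ht, h1, h2, h3⟩ := hu
      have h4 := (c2 _ h2).1 t h3 h1
      exact hX.V_mono (by gcongr) h4
  · intro M hMV hM
    have hsub : ∀ s : Finset G, (s : Set G) ⊆ M → CK s ⊆ M := fun s hs u hu =>
      hM s hs (Or.inl (Or.inl (Or.inl hu)))
    have hK : X.K M := k3 M (hMV.trans (hX.K_le _ (hX.K_V _))) hsub
    refine ⟨hMV, ⟨hK, ?_⟩, ?_, ?_⟩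
    · intro η hη hL
      obtain ⟨w, hwM, hw1, hw2⟩ := Lev_iff.1 hL
      have hl : X.lev w = η := lev_eq hX hw1 hw2
      refine (c2 η hη).2 _ inf_le_right fun t ht u hu => ?_
      have ht' : (t : Set G) ⊆ M := fun a ha => (ht ha).1
      have ht'' : (t : Set G) ⊆ X.V (η + 1) := fun a ha => (ht ha).2
      refine ⟨?_, (c2 η hη).1 t ht'' hu⟩
      have hs : ((insert w t : Finset G) : Set G) ⊆ M := by
        rw [Finset.coe_insert, Set.insert_subset_iff]
        exact ⟨hwM, ht'⟩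
      refine hM (insert w t) hs (Or.inr ?_)
      simp only [Set.mem_iUnion]
      refine ⟨w, Finset.mem_insert_self _ _, t,
        Finset.mem_powerset.2 (Finset.subset_insert _ _), ?_⟩
      rw [Set.mem_ofPred_eq, hl]
      exact ⟨hu, hη, ht''⟩
    · exact hM ∅ (by simp) (Or.inl (Or.inl (Or.inr rfl)))
    · intro w hw
      exact hM {w} (by simpa using hw) (Or.inl (Or.inr ⟨w, by simp, rfl⟩))

theorem sysI : Sys (X.V (ξ + 1)) (X.Nin ξ) (X.Din out ξ) where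
  fin := (hX.sys.fin.image _).union (Set.finite_singleton _)
  leW := by
    rintro N (⟨N', _, rfl⟩ | hN)
    · exact inf_le_right
    · rw [Set.mem_singleton_iff] at hN
      rw [hN]
      exact hX.V_mono (Order.le_succ ξ)
  clLe M hM := hM.1
  clW := by
    refine ⟨le_rfl, ClS_V hX hg _, hX.e_mem ξ, fun w _ => ?_⟩
    exact hX.V_mono (Order.le_succ ξ) (hX.ht2 _ (hX.K_cl _ (hX.K_V ξ)) w)
  clInf := by
    rintro M M2 ⟨a1, a2, a3, a4⟩ ⟨b1, b2, b3, b4⟩
    exact ⟨inf_le_left.trans a1, ClS_inf hX hg a2 b2, ⟨a3, b3⟩,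
      fun w hw => ⟨a4 w hw.1, b4 w hw.2⟩⟩
  club := clubI hX hg
  s1 := by
    intro M hM w _ hwM
    exact hG_mem hX hM.2.1.1 hwM
  s2 := by
    intro M hM w hw
    rw [mem_UU_Nin hX] at hw
    rcases hw.2 with h | h
    · show X.hG out M w ∈ M
      rw [hG_T (T_of_U hX hM.2.1.1 h)]
      exact hX.ht2 _ (hX.K_cl _ hM.2.1.1) _
    · exact S2G hX hg hM.2.1 w h
  s3 := by
    intro M hM w hw z hz hzw
    rw [mem_UU_Nin hX] at hw hzw
    exact S3G' hX hg hM.2.1 hw.2 hz hzw.2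
  s4 := by
    intro M hM w hw hwM
    rw [mem_UU_Nin hX] at hw
    exact S4G hX hg hM.2.1 hw.2 hwM
  s5 := by
    intro w hw
    rw [mem_UU_Nin hX] at hw
    rcases hw.2 with h | h
    · refine (hX.sys.s5 w h).subset ?_
      rintro t ⟨M, hM, rfl⟩
      exact ⟨M, hX.K_cl M hM.2.1.1, (hG_U hX hM.2.1.1 h).symm⟩
    · refine (S5G hX hg w h).subset ?_
      rintro t ⟨M, hM, rfl⟩
      exact ⟨M, hM.2.1, rfl⟩
  s5c := by
    rintro M hM N (⟨N', hN', rfl⟩ | hN) w hw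
    · show X.hG out M w ∈ _
      refine ⟨?_, ?_⟩
      · rw [hG_U hX hM.2.1.1 ⟨N', hN', hw.1⟩]
        exact hX.sys.s5c M (hX.K_cl M hM.2.1.1) N' hN' w hw.1
      · rw [hG_T (T_of_U hX hM.2.1.1 ⟨N', hN', hw.1⟩)]
        exact hM.1 (hX.ht2 _ (hX.K_cl _ hM.2.1.1) _)
    · rw [Set.mem_singleton_iff] at hN
      subst hN
      exact S2V hX hg hM.2.1 hw hw
  s6 := by
    intro w hw
    rw [mem_UU_Nin hX] at hw
    exact S6G hX hg hw.2
  s7 := by
    intro M M2 hM hM2 w hw hwM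
    rw [mem_UU_Nin hX] at hw
    show X.hG out M w = X.hG out (M ⊓ M2) w
    rcases hw.2 with h | h
    · rw [hG_U hX hM.2.1.1 h, hG_U hX (hX.K_inf _ _ hM.2.1.1 hM2.2.1.1) h]
      exact hX.sys.s7 M M2 (hX.K_cl _ hM.2.1.1) (hX.K_cl _ hM2.2.1.1) w h hwM
    · exact S7G hX hg hM.2.1 hM2.2.1 w h hwM

omit hg in
theorem incI (hξ : ξ < (Cardinal.mk X.W).ord) : Inc X.idx (X.V (ξ + 1)) (X.Nin ξ) := by
  have hcW : Cardinal.mk (X.V (ξ + 1)) ≤ Cardinal.mk X.W :=
    Cardinal.mk_le_mk_of_subset (hX.K_le _ (hX.K_V _))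
  have hcard : Cardinal.mk (X.V (ξ + 1)) ≤ max ℵ₀ ξ.card := by
    refine (hX.V_card _).trans ?_
    rcases le_or_gt Ordinal.omega0 ξ with h | h
    · rw [Ordinal.card_add_one]
      have h1 : ℵ₀ ≤ ξ.card := by
        rw [← Ordinal.card_omega0]; exact Ordinal.card_le_card h
      rw [Cardinal.add_one_eq h1]
    · have h1 : (ξ + 1 : Ordinal.{0}).card < ℵ₀ := by
        rw [Ordinal.card_add_one]
        have : ξ.card < ℵ₀ := by
          rw [← Cardinal.lt_ord, Cardinal.ord_aleph0]; exact h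
        exact Cardinal.add_lt_aleph0 this Cardinal.one_lt_aleph0
      exact max_le (le_max_left _ _) (h1.le.trans (le_max_left _ _))
  have key : ∀ κ' : Cardinal.{0}, κ' < Cardinal.mk (X.V (ξ + 1)) → ∀ a, X.idx a < κ'.ord →
      a ∈ X.V ξ := by
    intro κ' hκ' a ha
    rcases lt_or_ge κ' ℵ₀ with h | h
    · refine hX.V_mono zero_le (hX.V_om a (ha.trans ?_))
      rw [← Cardinal.ord_aleph0]
      exact Cardinal.ord_lt_ord.2 h
    · have h1 : κ' < max ℵ₀ ξ.card := hκ'.trans_le hcard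
      rw [lt_max_iff] at h1
      have h2 : κ' < ξ.card := h1.resolve_left (not_lt.2 h)
      refine hX.V_idx ξ a (hX.inc.inc2 a (ha.trans_le ?_)) (ha.trans_le ?_)
      · exact Cardinal.ord_le_ord.2 (hκ'.le.trans hcW)
      · exact Cardinal.ord_le.2 h2.le
  refine ⟨?_, ?_, ?_⟩
  · rintro N (⟨N', hN', rfl⟩ | hN) κ' hκ' a ha
    · exact ⟨hX.inc.inc1 N' hN' κ' (hκ'.trans_le hcW) a ha,
        hX.V_mono (Order.le_succ ξ) (key κ' hκ' a ha)⟩
    · rw [Set.mem_singleton_iff] at hN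
      rw [hN]
      exact key κ' hκ' a ha
  · intro a ha
    rcases le_or_gt (Cardinal.mk (X.V (ξ + 1))) ℵ₀ with h | h
    · refine hX.V_mono zero_le (hX.V_om a (ha.trans_le ?_))
      rw [← Cardinal.ord_aleph0]
      exact Cardinal.ord_le_ord.2 h
    · have h1 : Cardinal.mk (X.V (ξ + 1)) ≤ ξ.card := by
        rcases le_max_iff.1 hcard with h' | h'
        · exact absurd h (not_lt.2 h')
        · exact h'
      refine hX.V_mono (Order.le_succ ξ) (hX.V_idx ξ a (hX.inc.inc2 a (ha.trans_le ?_))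
        (ha.trans_le ?_))
      · exact Cardinal.ord_le_ord.2 hcW
      · exact Cardinal.ord_le.2 h1
  · intro a ha
    exact hX.V_mono zero_le (hX.V_om a ha)

/-- the bound for new elements. -/
lemma cG_new {w : G} (hw : w ∈ X.V ξ) (hU : w ∉ UU X.𝒩) {N : Subgroup G} (hN : N ∈ X.𝒩) :
    X.D.c ((lN N w)⁻¹ * w) < X.cG out w := by
  by_cases hw0 : w ∈ X.V 0
  · rw [cG, if_neg hU, if_pos hw0]
    exact hX.base2 w N hN
  · obtain ⟨l1, l2, l3⟩ := lev_spec hX hw hw0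
    rw [cG_V hX hg l3 l1]
    exact (hg _ l3).g5N w l1 hU l2 N hN

theorem claim_aux (N : ℕ) : ∀ (n k : ℕ) (μ : ℕ → Cardinal.{0}) (M : ℕ → Subgroup G) (g : ℕ → G),
    Scales X.idx X.wt (X.ClI out ξ) N k μ M g → ∀ f : G, (∀ i < k, f ∈ M i) →
    ∀ x ∈ UU (X.Nin ξ), ∀ y ∈ UU (X.Nin ξ), X.cG out x = n → X.cG out x < k →
      X.cG out x ≤ N → X.cG out y ≤ N → f * pt g k ≠ x * y⁻¹ := by
  intro n
  induction n using Nat.strong_induction_on with
  | _ n IH =>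
  intro k μ M g S f hf x hx y hy hxn hxk hxN hyN heq
  obtain ⟨K, rfl⟩ : ∃ K, k = K + 1 := ⟨k - 1, by omega⟩
  rw [mem_UU_Nin hX] at hx hy
  have hK : ∀ i < K + 1, X.ClI out ξ (M i) := S.cl
  have hKM : X.K (M K) := (hK K (by omega)).2.1.1
  have hfK : f ∈ M K := hf K (by omega)
  have hpt : f * pt g (K + 1) = (f * g K) * pt g K := by
    show f * (g K * pt g K) = _
    group
  have hptK : pt g K ∈ M K := S.pt_low (M K) (S.sub K (by omega))
  have hvM : x * y⁻¹ ∉ M K := by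
    rw [← heq, hpt]
    intro h
    have h1 := (M K).mul_mem h ((M K).inv_mem hptK)
    rw [mul_inv_cancel_right] at h1
    have h2 := (M K).mul_mem ((M K).inv_mem hfK) h1
    rw [inv_mul_cancel_left] at h2
    exact S.gnot K (by omega) h2
  have hvV : x * y⁻¹ ∈ X.V (ξ + 1) := mul_mem hx.1 (inv_mem hy.1)
  have hZ : X.V (μ K).ord ≤ M K := hX.K_mu _ hKM _ (S.inf K (by omega)) (S.sub K (by omega))
  have key : ∀ η, x * y⁻¹ ∈ X.V (η + 1) → (μ K).ord ≤ η := by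
    intro η hη
    by_contra h
    rw [not_le] at h
    exact hvM (hZ (hX.V_mono (Order.add_one_le_of_lt h) hη))
  have hμW : μ K < Cardinal.mk X.W := by
    by_contra h
    rw [not_lt] at h
    have h1 : X.V (Cardinal.mk X.W).ord ≤ X.V (μ K).ord :=
      hX.V_mono (Cardinal.ord_le_ord.2 h)
    rw [hX.V_top] at h1
    exact hvM (hZ (h1 (hX.K_le _ (hX.K_V _) hvV)))
  have hMW : ∀ i < K + 1, M i ≤ X.W := fun i hi => hX.K_le _ (hK i hi).2.1.1
  by_cases hyU : y ∈ UU X.𝒩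
  · by_cases hxU : x ∈ UU X.𝒩
    · -- case A
      rw [cG_U hX hxU] at hxk hxN
      rw [cG_U hX hyU] at hyN
      exact hX.claim N (K + 1) μ M g (S.mono fun M h => hX.K_cl _ h.2.1.1) f hf x hxU y hyU
        hxk hxN hyN heq
    · -- case B
      have hxV := hx.2.resolve_left hxU
      obtain ⟨N0, hN0, hyN0⟩ := hyU
      have hc := cG_new hX hg hxV hxU hN0
      have hptN : pt g K ∈ N0 := S.pt_low N0 fun a ha => hX.inc.inc1 N0 hN0 _ hμW a ha
      have e1 : lN N0 (x * y⁻¹) = lN N0 x := lN_eq_of_mul N0 x y⁻¹ (N0.inv_mem hyN0)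
      have e2 : lN N0 ((f * g K) * pt g K) = lN N0 (f * g K) := lN_eq_of_mul N0 _ _ hptN
      rw [hpt] at heq
      rw [heq, e1] at e2
      refine hX.claim N K μ M g (S.drop.mono fun M h => hX.K_cl _ h.2.1.1)
        ((lN N0 (f * g K))⁻¹ * (f * g K)) ?_ ((lN N0 x)⁻¹ * x) ⟨N0, hN0, lN_inv_mul N0 x⟩ y
        ⟨N0, hN0, hyN0⟩ (by omega) (by omega) ?_ ?_
      · intro i hi
        have h1 : f * g K ∈ M i := mul_mem (hf i (by omega)) (S.gmem i (by omega) K (by omega)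
          (by omega))
        exact mul_mem (inv_mem (hX.K_l _ (hK i (by omega)).2.1.1 N0 hN0 _ h1)) h1
      · rw [cG_U hX ⟨N0, hN0, hyN0⟩] at hyN
        exact hyN
      · rw [← e2, mul_assoc, heq]
        group
  have hyV := hy.2.resolve_left hyU
  by_cases hxV : x ∈ X.V ξ
  swap
  · -- case C
    have hxU := hx.2.resolve_right hxV
    have hxU' : x⁻¹ ∈ UU X.𝒩 := by
      obtain ⟨N0, hN0, h⟩ := hxU
      exact ⟨N0, hN0, inv_mem h⟩
    have hptV : pt g K ∈ X.V ξ := S.pt_low _ fun a ha =>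
      hX.V_idx ξ a (hMW K (by omega) (S.sub K (by omega) a ha)) (ha.trans_le (key ξ hvV))
    have hClV := hX.K_cl _ (hX.K_V ξ)
    have e1 : X.ht (X.V ξ) (x * y⁻¹)⁻¹ = y * X.ht (X.V ξ) x⁻¹ := by
      rw [mul_inv_rev, inv_inv, hX.ht3 _ hClV _ _ hyV]
    have e2 : X.ht (X.V ξ) ((f * g K) * pt g K)⁻¹ = (pt g K)⁻¹ * X.ht (X.V ξ) (f * g K)⁻¹ := by
      rw [mul_inv_rev, hX.ht3 _ hClV _ _ (inv_mem hptV)]
    rw [hpt] at heq
    rw [heq, e1] at e2
    have hb : X.hG out (X.V ξ) x⁻¹ = X.ht (X.V ξ) x⁻¹ := hG_T (T_of_U hX (hX.K_V ξ) hxU')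
    have hbV : X.ht (X.V ξ) x⁻¹ ∈ X.V ξ := hX.ht2 _ hClV _
    have hlt : X.cG out (X.ht (X.V ξ) x⁻¹)⁻¹ < X.cG out x := by
      rw [S6G hX hg (Or.inr hbV), ← hb]
      have h1 := S4G hX hg (ClS_V hX hg ξ) (w := x⁻¹) (Or.inl hxU')
        (fun h => hxV (by simpa using inv_mem h))
      rw [S6G hX hg (Or.inl hxU)] at h1
      exact h1
    refine IH _ (by omega) K μ M g S.drop (X.ht (X.V ξ) (f * g K)⁻¹)⁻¹ ?_
      (X.ht (X.V ξ) x⁻¹)⁻¹ ?_ y ?_ rfl (by omega) (by omega) hyN ?_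
    · intro i hi
      have h1 : f * g K ∈ M i := mul_mem (hf i (by omega)) (S.gmem i (by omega) K (by omega)
        (by omega))
      exact inv_mem ((hK i (by omega)).2.2.2 _ (inv_mem h1))
    · rw [mem_UU_Nin hX]
      exact ⟨hX.V_mono (Order.le_succ ξ) (inv_mem hbV), Or.inr (inv_mem hbV)⟩
    · rw [mem_UU_Nin hX]
      exact hy
    · have h3 : ((pt g K)⁻¹ * X.ht (X.V ξ) (f * g K)⁻¹)⁻¹ = (y * X.ht (X.V ξ) x⁻¹)⁻¹ := by
        rw [e2]
      simpa [mul_inv_rev] using h3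
  -- case D
  have hv0 : ¬ (x ∈ X.V 0 ∧ y ∈ X.V 0) := by
    rintro ⟨h1, h2⟩
    exact hvM (hX.K_0 _ hKM (mul_mem h1 (inv_mem h2)))
  obtain ⟨θ, hθ, t2, t3, t4⟩ := two_lev hX hg hxV hyV hv0
  have hvθ : x * y⁻¹ ∈ X.V (θ + 1) := mul_mem t2 (inv_mem t3)
  have hμθ := key θ hvθ
  by_cases hvθ' : x * y⁻¹ ∈ X.V θ
  · -- case D1
    have hxθ : x ∉ X.V θ := by
      intro h
      refine t4 ⟨h, ?_⟩
      have := mul_mem (inv_mem hvθ') h
      simpa using this
    have hyθ : y ∉ X.V θ := by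
      intro h
      refine t4 ⟨?_, h⟩
      have := mul_mem hvθ' h
      simpa using this
    have e1 : X.hG out (X.V θ) x = (x * y⁻¹) * X.hG out (X.V θ) y := by
      have h1 := S3G' hX hg (ClS_V hX hg θ) (w := y) (z := x * y⁻¹) (Or.inr hyV) hvθ'
        (by rw [inv_mul_cancel_right]; exact Or.inr hxV)
      rw [inv_mul_cancel_right] at h1
      exact h1
    have c1 := S4G hX hg (ClS_V hX hg θ) (w := x) (Or.inr hxV) hxθ
    have c2 := S4G hX hg (ClS_V hX hg θ) (w := y) (Or.inr hyV) hyθ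
    have m1 : X.hG out (X.V θ) x ∈ X.V ξ :=
      hX.V_mono hθ.le (S2G hX hg (ClS_V hX hg θ) x hxV)
    have m2 : X.hG out (X.V θ) y ∈ X.V ξ :=
      hX.V_mono hθ.le (S2G hX hg (ClS_V hX hg θ) y hyV)
    refine IH _ (by omega) (K + 1) μ M g S f hf (X.hG out (X.V θ) x) ?_ (X.hG out (X.V θ) y) ?_
      rfl (by omega) (by omega) (by omega) ?_
    · rw [mem_UU_Nin hX]; exact ⟨hX.V_mono (Order.le_succ ξ) m1, Or.inr m1⟩
    · rw [mem_UU_Nin hX]; exact ⟨hX.V_mono (Order.le_succ ξ) m2, Or.inr m2⟩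
    · rw [heq, e1]; group
  by_cases hsucc : (succ (μ K)).ord ≤ θ
  · -- case D2
    have hidx : ∀ a, X.idx a < (succ (μ K)).ord → a ∈ X.V θ := fun a ha =>
      hX.V_idx θ a (hX.inc.inc2 a (ha.trans_le (Cardinal.ord_le_ord.2
        (Order.succ_le_of_lt hμW)))) (ha.trans_le hsucc)
    have hptθ : pt g (K + 1) ∈ X.V θ := S.pt_all _ hidx
    have hfe : f = (x * y⁻¹) * (pt g (K + 1))⁻¹ := by rw [← heq]; group
    have hf1 : f ∈ X.V (θ + 1) := by
      rw [hfe]; exact mul_mem hvθ (inv_mem (hX.V_mono (Order.le_succ θ) hptθ))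
    have hf2 : f ∉ X.V θ := by
      intro h
      apply hvθ'
      rw [← heq]
      exact mul_mem h hptθ
    have hμi : ∀ i < K + 1, μ i ≤ μ K := by
      intro i hi
      rcases Nat.lt_succ_iff_lt_or_eq.1 hi with h | h
      · exact (Order.le_succ _).trans (S.step i K h (by omega))
      · rw [h]
    have S' : Scales X.idx X.wt (out θ).Cl N (K + 1) μ (fun i => M i ⊓ X.V (θ + 1)) g := by
      refine ⟨S.inf, S.wt, ?_, ?_, S.gidx, ?_, ?_, S.step⟩
      · intro i hi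
        exact (hK i hi).2.1.2 θ hθ (Lev_iff.2 ⟨f, hf i hi, hf1, hf2⟩)
      · intro i hi a ha
        refine ⟨S.sub i hi a ha, hX.V_mono (Order.le_succ θ) (hidx a (ha.trans_le ?_))⟩
        exact Cardinal.ord_le_ord.2 ((hμi i hi).trans (Order.le_succ _))
      · intro i hi h
        exact S.gnot i hi h.1
      · intro i hi j hj hij
        refine ⟨S.gmem i hi j hj hij, hX.V_mono (Order.le_succ θ) (hidx _ ?_)⟩
        exact (S.gidx j hj).trans_le (Cardinal.ord_le_ord.2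
          (Order.succ_le_succ (hμi j hj)))
    have hgθ := hg θ hθ
    rw [cG_V hX hg hθ t2] at hxk hxN
    rw [cG_V hX hg hθ t3] at hyN
    exact hgθ.claim N (K + 1) μ _ g S' f (fun i hi => ⟨hf i hi, hf1⟩) x
      ((mem_UU_singleton _ _).2 t2) y ((mem_UU_singleton _ _).2 t3) hxk hxN hyN heq
  · -- case D3
    rw [not_le] at hsucc
    have hbig : ∀ w ∈ X.V (θ + 1), w ∉ UU X.𝒩 → X.cG out w ≤ N → w ∈ X.V (μ K).ord := by
      intro w hw hwU hwN
      by_contra hwZ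
      have hw0 : w ∉ X.V 0 := fun h => hwZ (hX.V_mono zero_le h)
      obtain ⟨l1, l2, l3⟩ := lev_spec hX hw hw0
      have hle : X.lev w ≤ θ := lev_le hX hw
      have hge : (μ K).ord ≤ X.lev w := by
        by_contra h
        rw [not_le] at h
        exact hwZ (hX.V_mono (Order.add_one_le_of_lt h) l1)
      have hcard : (X.lev w).card = μ K := by
        refine le_antisymm ?_ (Cardinal.ord_le.1 hge)
        exact Order.lt_succ_iff.1 (Cardinal.lt_ord.1 (hle.trans_lt hsucc))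
      have hlξ : X.lev w < ξ := hle.trans_lt hθ
      have h1 := (hg _ hlξ).g5w w l1 hwU l2
      rw [← cG_V hX hg hlξ l1, hcard] at h1
      have h2 := S.wt K (by omega)
      omega
    have hyZ : y ∈ X.V (μ K).ord := hbig y t3 hyU hyN
    have hxZ : x ∉ X.V (μ K).ord := fun h => hvM (hZ (mul_mem h (inv_mem hyZ)))
    have hxU : x ∈ UU X.𝒩 := by
      by_contra h
      exact hxZ (hbig x t2 h hxN)
    have hZξ : X.V (μ K).ord ≤ X.V ξ := hX.V_mono (hμθ.trans hθ.le)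
    have hSZ := ClS_V hX hg (out := out) (μ K).ord
    have hptZ : pt g K ∈ X.V (μ K).ord := S.pt_low _ fun a ha =>
      hX.V_idx _ a (hMW K (by omega) (S.sub K (by omega) a ha)) ha
    have hvξ : x * y⁻¹ ∈ X.V ξ := mul_mem hxV (inv_mem hyV)
    have e1 : X.hG out (X.V (μ K).ord) (x * y⁻¹)⁻¹ = y * X.hG out (X.V (μ K).ord) x⁻¹ := by
      rw [mul_inv_rev, inv_inv]
      refine S3G' hX hg hSZ (Or.inr (inv_mem hxV)) hyZ (Or.inr ?_)
      exact mul_mem hyV (inv_mem hxV)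
    have hfg : f * g K ∈ X.V ξ := by
      have h1 : f * g K = (x * y⁻¹) * (pt g K)⁻¹ := by rw [← heq, hpt]; group
      rw [h1]; exact mul_mem hvξ (inv_mem (hZξ hptZ))
    have e2 : X.hG out (X.V (μ K).ord) ((f * g K) * pt g K)⁻¹ =
        (pt g K)⁻¹ * X.hG out (X.V (μ K).ord) (f * g K)⁻¹ := by
      rw [mul_inv_rev]
      refine S3G' hX hg hSZ (Or.inr (inv_mem hfg)) (inv_mem hptZ) (Or.inr ?_)
      exact mul_mem (inv_mem (hZξ hptZ)) (inv_mem hfg)
    rw [hpt] at heq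
    rw [heq, e1] at e2
    have hbZ : X.hG out (X.V (μ K).ord) x⁻¹ ∈ X.V (μ K).ord :=
      S2G hX hg hSZ _ (inv_mem hxV)
    have hlt : X.cG out (X.hG out (X.V (μ K).ord) x⁻¹)⁻¹ < X.cG out x := by
      rw [S6G hX hg (Or.inr (hZξ hbZ))]
      have h1 := S4G hX hg hSZ (w := x⁻¹) (Or.inr (inv_mem hxV))
        (fun h => hxZ (by simpa using inv_mem h))
      rw [S6G hX hg (Or.inr hxV)] at h1
      exact h1
    refine IH _ (by omega) K μ M g S.drop (X.hG out (X.V (μ K).ord) (f * g K)⁻¹)⁻¹ ?_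
      (X.hG out (X.V (μ K).ord) x⁻¹)⁻¹ ?_ y ?_ rfl (by omega) (by omega) hyN ?_
    · intro i hi
      have h1 : f * g K ∈ M i := mul_mem (hf i (by omega)) (S.gmem i (by omega) K (by omega)
        (by omega))
      have hMi := (hK i (by omega)).2.1
      rw [S7G hX hg hSZ hMi _ (inv_mem hfg) (inv_mem h1)]
      exact inv_mem (S2G hX hg (ClS_inf hX hg hSZ hMi) _ (inv_mem hfg)).2
    · rw [mem_UU_Nin hX]
      exact ⟨hX.V_mono (Order.le_succ ξ) (inv_mem (hZξ hbZ)), Or.inr (inv_mem (hZξ hbZ))⟩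
    · rw [mem_UU_Nin hX]
      exact hy
    · have h3 : ((pt g K)⁻¹ * X.hG out (X.V (μ K).ord) (f * g K)⁻¹)⁻¹ =
          (y * X.hG out (X.V (μ K).ord) x⁻¹)⁻¹ := by
        rw [e2]
      simpa [mul_inv_rev] using h3

theorem claimI : Claim X.idx X.wt (X.Nin ξ) (X.Din out ξ) := by
  intro N k μ M g S f hf x hx y hy hxk hxN hyN
  exact claim_aux hX hg N (X.cG out x) k μ M g S f hf x hx y hy rfl hxk hxN hyN

end Ctx

end Pool.Agent.CountPart
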